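import Pool.Agent.Lib.MP_ba0fa5_ag.AA.IfaceA

/-!
MP_ba0fa5_ag, Theorem A, module EXPT: the large `(t, d)`.
-/

namespace Pool.Agent.Lib.MP_ba0fa5_ag.AA.H74

open scoped Classical
open Finset

/-- the powers of one term -/
theorem expt_powers {t d lc z : ℝ} (ht : 1 ≤ t) (hd : 1 ≤ d) (hlt : t ≤ lc) (hld : d ≤ lc)
    (hz : 0 < z) :
    t ^ (9 / 1000 : ℝ) * d ^ (1 / 1000 : ℝ) * (1 / (d * lc)) * (1 / t + 1 / z) ≤
      (t * d) ^ (-(1001 / 1000) : ℝ) *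
        ((t * d) ^ (-(1 / 4) : ℝ) + (t * d) ^ (1 / 100 : ℝ) / z) := by
  set x : ℝ := t * d with hx
  have ht0 : 0 < t := by linarith
  have hd0 : 0 < d := by linarith
  have hl0 : 0 < lc := by linarith
  have hx1 : 1 ≤ x := by nlinarith
  have hx0 : 0 < x := by linarith
  have h1 : t ^ (9 / 1000 : ℝ) * d ^ (1 / 1000 : ℝ) ≤ x ^ (9 / 1000 : ℝ) := by
    rw [hx, Real.mul_rpow ht0.le hd0.le]
    exact mul_le_mul_of_nonneg_left (Real.rpow_le_rpow_of_exponent_le hd (by norm_num))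
      (by positivity)
  have hlc : x ^ (1 / 2 : ℝ) ≤ lc := by
    have h2 : x ≤ lc ^ 2 := by nlinarith
    calc x ^ (1 / 2 : ℝ) ≤ (lc ^ 2) ^ (1 / 2 : ℝ) := Real.rpow_le_rpow hx0.le h2 (by norm_num)
      _ = lc := by
          rw [← Real.rpow_natCast, ← Real.rpow_mul hl0.le]
          norm_num
  have h3 : 1 / (d * lc) * (1 / t) ≤ x ^ (-(3 / 2) : ℝ) := by
    have h4 : x * x ^ (1 / 2 : ℝ) ≤ d * lc * t := by
      have : x * x ^ (1 / 2 : ℝ) ≤ x * lc := mul_le_mul_of_nonneg_left hlc hx0.le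
      calc x * x ^ (1 / 2 : ℝ) ≤ x * lc := this
        _ = d * lc * t := by rw [hx]; ring
    have h5 : x ^ (3 / 2 : ℝ) = x * x ^ (1 / 2 : ℝ) := by
      rw [show (3 / 2 : ℝ) = 1 + 1 / 2 by norm_num, Real.rpow_add hx0, Real.rpow_one]
    rw [Real.rpow_neg hx0.le, h5, one_div_mul_one_div, one_div]
    exact inv_anti₀ (by positivity) h4
  have h6 : 1 / (d * lc) ≤ x ^ (-1 : ℝ) := by
    rw [Real.rpow_neg hx0.le, Real.rpow_one, one_div]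
    apply inv_anti₀ hx0
    rw [hx, mul_comm]
    exact mul_le_mul_of_nonneg_left hlt hd0.le
  calc t ^ (9 / 1000 : ℝ) * d ^ (1 / 1000 : ℝ) * (1 / (d * lc)) * (1 / t + 1 / z)
      = (t ^ (9 / 1000 : ℝ) * d ^ (1 / 1000 : ℝ)) *
          (1 / (d * lc) * (1 / t) + 1 / (d * lc) / z) := by
        field_simp
    _ ≤ x ^ (9 / 1000 : ℝ) * (x ^ (-(3 / 2) : ℝ) + x ^ (-1 : ℝ) / z) := by
        apply mul_le_mul h1 _ (by positivity) (by positivity)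
        exact add_le_add h3 (div_le_div_of_nonneg_right h6 hz.le)
    _ = x ^ (9 / 1000 - 3 / 2 : ℝ) + x ^ (9 / 1000 - 1 : ℝ) / z := by
        rw [mul_add, mul_div_assoc', ← Real.rpow_add hx0, ← Real.rpow_add hx0]
        norm_num
    _ ≤ x ^ (-(1001 / 1000) + -(1 / 4) : ℝ) + x ^ (-(1001 / 1000) + 1 / 100 : ℝ) / z := by
        apply add_le_add
        · exact Real.rpow_le_rpow_of_exponent_le hx1 (by norm_num)
        · apply div_le_div_of_nonneg_right _ hz.le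
          exact Real.rpow_le_rpow_of_exponent_le hx1 (by norm_num)
    _ = x ^ (-(1001 / 1000) : ℝ) * (x ^ (-(1 / 4) : ℝ) + x ^ (1 / 100 : ℝ) / z) := by
        rw [mul_add, mul_div_assoc', Real.rpow_add hx0, Real.rpow_add hx0]

/-- one term of the sum -/
theorem expt_term {C C₁ : ℝ} (hC : 0 < C) (hC₁ : 0 < C₁)
    (hdiv : ∀ n : ℕ, 1 ≤ n →
      (n.divisors.card : ℝ) ≤ C₁ * (n : ℝ) ^ (1 / 1000 : ℝ) ∧
      (n : ℝ) / n.totient ≤ C₁ * (n : ℝ) ^ (1 / 1000 : ℝ) ∧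
      (4 : ℝ) ^ n.primeFactors.card ≤ C₁ * (n : ℝ) ^ (1 / 1000 : ℝ))
    {L P : ℝ} {Z t d : ℕ} (_hL : 0 ≤ L) (hZ : 2 ≤ Z) (ht : 1 ≤ t) (hd : 1 ≤ d)
    (hP : P ≤ C * L ^ 8 * (t.divisors.card : ℝ) ^ 8 *
      (1 / ((t : ℝ) * (t.lcm d)) * (1 / t + 1 / (Z : ℝ) ^ 10))) :
    cf t d * P ≤ C * L ^ 8 * C₁ ^ 10 * (((t : ℝ) * d) ^ (-(1001 / 1000) : ℝ) *
        (((t : ℝ) * d) ^ (-(1 / 4) : ℝ) + ((t : ℝ) * d) ^ (1 / 100 : ℝ) / (Z : ℝ) ^ 10)) := by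
  have ht1 : (1 : ℝ) ≤ t := by exact_mod_cast ht
  have hd1 : (1 : ℝ) ≤ d := by exact_mod_cast hd
  have ht0 : (0 : ℝ) < t := by linarith
  have hd0 : (0 : ℝ) < d := by linarith
  have hZ0 : (0 : ℝ) < Z := by exact_mod_cast (by omega : 0 < Z)
  have hlpos : 0 < t.lcm d := Nat.pos_of_ne_zero (Nat.lcm_ne_zero (by omega) (by omega))
  have hlt : (t : ℝ) ≤ (t.lcm d : ℕ) := by
    exact_mod_cast Nat.le_of_dvd hlpos (Nat.dvd_lcm_left t d)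
  have hld : (d : ℝ) ≤ (t.lcm d : ℕ) := by
    exact_mod_cast Nat.le_of_dvd hlpos (Nat.dvd_lcm_right t d)
  have hl0 : (0 : ℝ) < (t.lcm d : ℕ) := by exact_mod_cast hlpos
  obtain ⟨a1, -, a3⟩ := hdiv t ht
  obtain ⟨-, b2, -⟩ := hdiv d hd
  have hφ : (0 : ℝ) < d.totient := by exact_mod_cast Nat.totient_pos.mpr (by omega)
  have hcf0 : 0 ≤ cf t d := by unfold cf; positivity
  have hcf : cf t d ≤ t * (C₁ * (t : ℝ) ^ (1 / 1000 : ℝ)) * (C₁ * (d : ℝ) ^ (1 / 1000 : ℝ) / d) := by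
    unfold cf
    have h1 : (1 : ℝ) / d.totient ≤ C₁ * (d : ℝ) ^ (1 / 1000 : ℝ) / d := by
      rw [le_div_iff₀ hd0, one_div_mul_eq_div]
      exact b2
    calc (t : ℝ) * 4 ^ t.primeFactors.card / d.totient
        = (t : ℝ) * 4 ^ t.primeFactors.card * (1 / d.totient) := by ring
      _ ≤ t * (C₁ * (t : ℝ) ^ (1 / 1000 : ℝ)) * (C₁ * (d : ℝ) ^ (1 / 1000 : ℝ) / d) := by
          apply mul_le_mul _ h1 (by positivity) (by positivity)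
          exact mul_le_mul_of_nonneg_left a3 ht0.le
  have hτ : (t.divisors.card : ℝ) ^ 8 ≤ (C₁ * (t : ℝ) ^ (1 / 1000 : ℝ)) ^ 8 :=
    pow_le_pow_left₀ (Nat.cast_nonneg _) a1 8
  have hpw : (t : ℝ) ^ (1 / 1000 : ℝ) * ((t : ℝ) ^ (1 / 1000 : ℝ)) ^ 8 =
      (t : ℝ) ^ (9 / 1000 : ℝ) := by
    rw [← Real.rpow_natCast, ← Real.rpow_mul ht0.le, ← Real.rpow_add ht0]
    norm_num
  calc cf t d * P ≤ cf t d * (C * L ^ 8 * (t.divisors.card : ℝ) ^ 8 *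
      (1 / ((t : ℝ) * (t.lcm d)) * (1 / t + 1 / (Z : ℝ) ^ 10))) :=
        mul_le_mul_of_nonneg_left hP hcf0
    _ ≤ (t * (C₁ * (t : ℝ) ^ (1 / 1000 : ℝ)) * (C₁ * (d : ℝ) ^ (1 / 1000 : ℝ) / d)) *
          (C * L ^ 8 * (C₁ * (t : ℝ) ^ (1 / 1000 : ℝ)) ^ 8 *
      (1 / ((t : ℝ) * (t.lcm d)) * (1 / t + 1 / (Z : ℝ) ^ 10))) := by
        apply mul_le_mul hcf _ (by positivity) (by positivity)
        apply mul_le_mul_of_nonneg_right _ (by positivity)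
        exact mul_le_mul_of_nonneg_left hτ (by positivity)
    _ = C * L ^ 8 * C₁ ^ 10 * (((t : ℝ) ^ (1 / 1000 : ℝ) * ((t : ℝ) ^ (1 / 1000 : ℝ)) ^ 8) *
          (d : ℝ) ^ (1 / 1000 : ℝ) * (1 / ((d : ℝ) * (t.lcm d))) *
            (1 / t + 1 / (Z : ℝ) ^ 10)) := by
        field_simp
    _ ≤ C * L ^ 8 * C₁ ^ 10 * (((t : ℝ) * d) ^ (-(1001 / 1000) : ℝ) *
        (((t : ℝ) * d) ^ (-(1 / 4) : ℝ) + ((t : ℝ) * d) ^ (1 / 100 : ℝ) / (Z : ℝ) ^ 10)) := by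
        rw [hpw]
        exact mul_le_mul_of_nonneg_left (expt_powers ht1 hd1 hlt hld (by positivity))
          (by positivity)

theorem expt (h1 : TermtStmt) (h2 : DivbStmt) : ExptStmt := by
  obtain ⟨C, hC, hterm⟩ := h1
  obtain ⟨C₁, hC₁, hdiv⟩ := h2 (1 / 1000) (by norm_num)
  have hsum : Summable (fun n : ℕ => (n : ℝ) ^ (-(1001 / 1000) : ℝ)) :=
    Real.summable_nat_rpow.mpr (by norm_num)
  set S : ℝ := ∑' n : ℕ, (n : ℝ) ^ (-(1001 / 1000) : ℝ) with hS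
  have hS0 : 0 ≤ S := tsum_nonneg fun n => by positivity
  intro W hW δ hδ
  set K : ℝ := C * C₁ ^ 10 * S ^ 2 * 256 with hK
  have hlim : Filter.Tendsto (fun n : ℕ => K * (1 / (n : ℝ) ^ 2 + 9 * ((n : ℝ) ^ 8 / 16 ^ n)))
      Filter.atTop (nhds 0) := by
    have l1 : Filter.Tendsto (fun n : ℕ => 1 / (n : ℝ) ^ 2) Filter.atTop (nhds 0) := by
      have := (Filter.tendsto_pow_atTop (α := ℝ) (n := 2) (by norm_num)).comp
        (tendsto_natCast_atTop_atTop (R := ℝ))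
      have h3 := this.const_div_atTop 1
      simp only [Function.comp_def] at h3
      exact h3
    have l2 := tendsto_pow_const_div_const_pow_of_one_lt 8 (r := (16 : ℝ)) (by norm_num)
    have l3 := (l1.add (l2.const_mul 9)).const_mul K
    simpa using l3
  have hev := hlim.eventually (gt_mem_nhds hδ)
  rw [Filter.eventually_atTop] at hev
  obtain ⟨n₀, hn₀⟩ := hev
  refine ⟨2 ^ (n₀ + 1), fun Z c hZ hc => ?_⟩
  set n : ℕ := Nat.log 2 Z with hn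
  have hZ2 : 2 ≤ Z := le_trans (by
    calc 2 = 2 ^ 1 := (pow_one 2).symm
      _ ≤ 2 ^ (n₀ + 1) := Nat.pow_le_pow_right (by norm_num) (by omega)) hZ
  have hZne : Z ≠ 0 := by omega
  have hn1 : n₀ + 1 ≤ n := by
    rw [hn]; exact (Nat.le_log_iff_pow_le (by norm_num) hZne).mpr hZ
  have hZlow : 2 ^ n ≤ Z := Nat.pow_log_le_self 2 hZne
  have hZup : Z < 2 ^ (n + 1) := Nat.lt_pow_succ_log_self (by norm_num) Z
  have hZ0 : (0 : ℝ) < Z := by exact_mod_cast (by omega : 0 < Z)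
  have hL0 : 0 ≤ Real.log Z := Real.log_natCast_nonneg Z
  have hn0 : (1 : ℝ) ≤ n := by exact_mod_cast (by omega : 1 ≤ n)
  have hL : Real.log Z ≤ 2 * n := by
    have h3 : Real.log Z ≤ Real.log ((2 : ℝ) ^ (n + 1)) :=
      Real.log_le_log hZ0 (by exact_mod_cast hZup.le)
    rw [Real.log_pow] at h3
    have h4 : Real.log 2 ≤ 1 := by
      have := Real.log_two_lt_d9; linarith
    have h5 : ((n + 1 : ℕ) : ℝ) * Real.log 2 ≤ ((n + 1 : ℕ) : ℝ) * 1 :=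
      mul_le_mul_of_nonneg_left h4 (Nat.cast_nonneg _)
    push_cast at h3 h5
    linarith
  have hL8 : Real.log Z ^ 8 ≤ 256 * (n : ℝ) ^ 8 := by
    calc Real.log Z ^ 8 ≤ (2 * (n : ℝ)) ^ 8 := pow_le_pow_left₀ hL0 hL 8
      _ = 256 * (n : ℝ) ^ 8 := by ring
  have hZ16 : (16 : ℝ) ^ n ≤ (Z : ℝ) ^ 4 := by
    have h3 : ((2 : ℝ) ^ n) ^ 4 ≤ (Z : ℝ) ^ 4 :=
      pow_le_pow_left₀ (by positivity) (by exact_mod_cast hZlow) 4
    calc (16 : ℝ) ^ n = ((2 : ℝ) ^ n) ^ 4 := by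
          rw [← pow_mul, mul_comm, pow_mul]; norm_num
      _ ≤ (Z : ℝ) ^ 4 := h3
  -- one term
  have hone : ∀ s ∈ (Icc 1 (3 * Z ^ 300) ×ˢ Icc 1 (3 * Z ^ 300)).filter
      (fun s => ¬ (s.1 ≤ TZ Z ∧ s.2 ≤ TZ Z)),
      cf s.1 s.2 * pairSum W c Z s.1 s.2 ≤ C * Real.log Z ^ 8 * C₁ ^ 10 *
        (1 / (n : ℝ) ^ 10 + 9 / (16 : ℝ) ^ n) *
        ((s.1 : ℝ) ^ (-(1001 / 1000) : ℝ) * (s.2 : ℝ) ^ (-(1001 / 1000) : ℝ)) := by
    rintro ⟨t, d⟩ hs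
    rw [mem_filter, mem_product, mem_Icc, mem_Icc] at hs
    obtain ⟨⟨⟨ht, ht'⟩, hd, hd'⟩, hlarge⟩ := hs
    simp only at ht ht' hd hd' hlarge ⊢
    have ht1 : (1 : ℝ) ≤ t := by exact_mod_cast ht
    have hd1 : (1 : ℝ) ≤ d := by exact_mod_cast hd
    have hx0 : (0 : ℝ) < (t : ℝ) * d := by nlinarith
    have hxT : (n : ℝ) ^ 40 ≤ (t : ℝ) * d := by
      have h3 : TZ Z ≤ t * d := by
        rcases not_and_or.mp hlarge with h | h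
        · calc TZ Z ≤ t := by omega
            _ ≤ t * d := Nat.le_mul_of_pos_right t hd
        · calc TZ Z ≤ d := by omega
            _ ≤ t * d := Nat.le_mul_of_pos_left d ht
      unfold TZ at h3
      exact_mod_cast h3
    have hxU : (t : ℝ) * d ≤ (9 : ℝ) * (Z : ℝ) ^ 600 := by
      have h3 : (t : ℝ) ≤ 3 * (Z : ℝ) ^ 300 := by exact_mod_cast ht'
      have h4 : (d : ℝ) ≤ 3 * (Z : ℝ) ^ 300 := by exact_mod_cast hd'
      calc (t : ℝ) * d ≤ (3 * (Z : ℝ) ^ 300) * (3 * (Z : ℝ) ^ 300) :=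
            mul_le_mul h3 h4 (by positivity) (by positivity)
        _ = (9 : ℝ) * (Z : ℝ) ^ 600 := by rw [show 600 = 300 + 300 by norm_num, pow_add]; ring
    have hA : ((t : ℝ) * d) ^ (-(1 / 4) : ℝ) ≤ 1 / (n : ℝ) ^ 10 := by
      rw [Real.rpow_neg hx0.le, one_div ((n : ℝ) ^ 10)]
      apply inv_anti₀ (by positivity)
      calc (n : ℝ) ^ 10 = ((n : ℝ) ^ 40) ^ (1 / 4 : ℝ) := by
            rw [← Real.rpow_natCast, ← Real.rpow_natCast, ← Real.rpow_mul (by linarith)]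
            norm_num
        _ ≤ ((t : ℝ) * d) ^ (1 / 4 : ℝ) := Real.rpow_le_rpow (by positivity) hxT (by norm_num)
    have hB : ((t : ℝ) * d) ^ (1 / 100 : ℝ) / (Z : ℝ) ^ 10 ≤ 9 / (16 : ℝ) ^ n := by
      have h3 : ((t : ℝ) * d) ^ (1 / 100 : ℝ) ≤ 9 * (Z : ℝ) ^ 6 := by
        calc ((t : ℝ) * d) ^ (1 / 100 : ℝ) ≤ ((9 : ℝ) * (Z : ℝ) ^ 600) ^ (1 / 100 : ℝ) :=
              Real.rpow_le_rpow hx0.le hxU (by norm_num)
          _ = (9 : ℝ) ^ (1 / 100 : ℝ) * ((Z : ℝ) ^ 600) ^ (1 / 100 : ℝ) :=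
              Real.mul_rpow (by norm_num) (by positivity)
          _ = (9 : ℝ) ^ (1 / 100 : ℝ) * (Z : ℝ) ^ 6 := by
              congr 1
              rw [← Real.rpow_natCast, ← Real.rpow_natCast, ← Real.rpow_mul hZ0.le]
              norm_num
          _ ≤ 9 * (Z : ℝ) ^ 6 := by
              apply mul_le_mul_of_nonneg_right _ (by positivity)
              calc (9 : ℝ) ^ (1 / 100 : ℝ) ≤ (9 : ℝ) ^ (1 : ℝ) :=
                    Real.rpow_le_rpow_of_exponent_le (by norm_num) (by norm_num)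
                _ = 9 := Real.rpow_one 9
      calc ((t : ℝ) * d) ^ (1 / 100 : ℝ) / (Z : ℝ) ^ 10 ≤ 9 * (Z : ℝ) ^ 6 / (Z : ℝ) ^ 10 :=
            div_le_div_of_nonneg_right h3 (by positivity)
        _ = 9 / (Z : ℝ) ^ 4 := by
            rw [show 10 = 6 + 4 by norm_num, pow_add]
            field_simp
        _ ≤ 9 / (16 : ℝ) ^ n := div_le_div_of_nonneg_left (by norm_num) (by positivity) hZ16
    have hm := expt_term hC hC₁ hdiv hL0 hZ2 ht hd (hterm W Z c t d hW hZ2 hc ht hd)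
    refine hm.trans ?_
    rw [Real.mul_rpow (by positivity : (0 : ℝ) ≤ t) (by positivity : (0 : ℝ) ≤ d)]
    rw [mul_assoc (C * Real.log Z ^ 8 * C₁ ^ 10)]
    apply mul_le_mul_of_nonneg_left _ (by positivity)
    rw [mul_comm]
    exact mul_le_mul_of_nonneg_right (add_le_add hA hB) (by positivity)
  have hSS : ∑ s ∈ ((Icc 1 (3 * Z ^ 300) : Finset ℕ) ×ˢ (Icc 1 (3 * Z ^ 300) : Finset ℕ)).filter
      (fun s => ¬ (s.1 ≤ TZ Z ∧ s.2 ≤ TZ Z)),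
      ((s.1 : ℝ) ^ (-(1001 / 1000) : ℝ) * (s.2 : ℝ) ^ (-(1001 / 1000) : ℝ)) ≤ S ^ 2 := by
    calc ∑ s ∈ ((Icc 1 (3 * Z ^ 300) : Finset ℕ) ×ˢ (Icc 1 (3 * Z ^ 300) : Finset ℕ)).filter
          (fun s => ¬ (s.1 ≤ TZ Z ∧ s.2 ≤ TZ Z)),
          ((s.1 : ℝ) ^ (-(1001 / 1000) : ℝ) * (s.2 : ℝ) ^ (-(1001 / 1000) : ℝ))
        ≤ ∑ s ∈ (Icc 1 (3 * Z ^ 300) : Finset ℕ) ×ˢ (Icc 1 (3 * Z ^ 300) : Finset ℕ),
          ((s.1 : ℝ) ^ (-(1001 / 1000) : ℝ) * (s.2 : ℝ) ^ (-(1001 / 1000) : ℝ)) :=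
          sum_le_sum_of_subset_of_nonneg (filter_subset _ _) fun s _ _ => by positivity
      _ = (∑ a ∈ (Icc 1 (3 * Z ^ 300) : Finset ℕ), (a : ℝ) ^ (-(1001 / 1000) : ℝ)) *
            (∑ a ∈ (Icc 1 (3 * Z ^ 300) : Finset ℕ), (a : ℝ) ^ (-(1001 / 1000) : ℝ)) := by
          rw [sum_product, sum_mul_sum]
      _ ≤ S * S := by
          have h3 : ∑ a ∈ (Icc 1 (3 * Z ^ 300) : Finset ℕ), (a : ℝ) ^ (-(1001 / 1000) : ℝ) ≤ S :=
            hsum.sum_le_tsum _ fun a _ => by positivity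
          exact mul_le_mul h3 h3 (sum_nonneg fun a _ => by positivity) hS0
      _ = S ^ 2 := by ring
  calc ∑ s ∈ (Icc 1 (3 * Z ^ 300) ×ˢ Icc 1 (3 * Z ^ 300)).filter
          (fun s => ¬ (s.1 ≤ TZ Z ∧ s.2 ≤ TZ Z)), cf s.1 s.2 * pairSum W c Z s.1 s.2
      ≤ ∑ s ∈ ((Icc 1 (3 * Z ^ 300) : Finset ℕ) ×ˢ (Icc 1 (3 * Z ^ 300) : Finset ℕ)).filter
          (fun s => ¬ (s.1 ≤ TZ Z ∧ s.2 ≤ TZ Z)), C * Real.log Z ^ 8 * C₁ ^ 10 *
        (1 / (n : ℝ) ^ 10 + 9 / (16 : ℝ) ^ n) *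
        ((s.1 : ℝ) ^ (-(1001 / 1000) : ℝ) * (s.2 : ℝ) ^ (-(1001 / 1000) : ℝ)) :=
        sum_le_sum hone
    _ ≤ C * Real.log Z ^ 8 * C₁ ^ 10 * (1 / (n : ℝ) ^ 10 + 9 / (16 : ℝ) ^ n) * S ^ 2 := by
        rw [← mul_sum]
        exact mul_le_mul_of_nonneg_left hSS (by positivity)
    _ ≤ C * (256 * (n : ℝ) ^ 8) * C₁ ^ 10 * (1 / (n : ℝ) ^ 10 + 9 / (16 : ℝ) ^ n) * S ^ 2 := by
        gcongr
    _ = K * (1 / (n : ℝ) ^ 2 + 9 * ((n : ℝ) ^ 8 / 16 ^ n)) := by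
        have hne : (n : ℝ) ≠ 0 := by positivity
        rw [hK]
        field_simp
    _ ≤ δ := (hn₀ n (by omega)).le

end Pool.Agent.Lib.MP_ba0fa5_ag.AA.H74
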