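import Pool.Agent.Lib.MP_ba0fa5_ag.AA.IfaceA

/-!
MP_ba0fa5_ag, Theorem A, module TERMT: one term `(t, d)` of the pair sum.
-/

namespace Pool.Agent.Lib.MP_ba0fa5_ag.AA.H74

open scoped Classical
open Finset

/-! ### the weight `fw` -/

theorem dl_nonneg (l : ℕ) : 0 ≤ dl l := by
  unfold dl; split_ifs <;> norm_num

theorem dl_le_half (l : ℕ) : dl l ≤ 1 / 2 := by
  unfold dl; split_ifs <;> norm_num

theorem ws_nonneg (n : ℕ) : 0 ≤ ws n :=
  Finset.prod_nonneg fun l _ => pow_nonneg (dl_nonneg l) _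

theorem ws_le_prod (n : ℕ) : ws n ≤ ∏ l ∈ n.primeFactors, (1 - (l : ℝ)⁻¹) := by
  unfold ws
  refine Finset.prod_le_prod (fun l _ => pow_nonneg (dl_nonneg l) _) fun l hl => ?_
  have hp := Nat.prime_of_mem_primeFactors hl
  have h1 : 1 ≤ n.factorization l := by
    have h2 := Nat.support_factorization n
    have h3 : l ∈ n.factorization.support := by rw [h2]; exact hl
    exact Nat.one_le_iff_ne_zero.mpr (Finsupp.mem_support_iff.mp h3)
  have h2 : dl l ^ n.factorization l ≤ dl l := by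
    have h3 : dl l ≤ 1 := (dl_le_half l).trans (by norm_num)
    calc dl l ^ n.factorization l ≤ dl l ^ 1 := pow_le_pow_of_le_one (dl_nonneg l) h3 h1
      _ = dl l := pow_one _
  have h3 : (l : ℝ)⁻¹ ≤ 1 / 2 := by
    rw [one_div]
    apply inv_anti₀ (by norm_num)
    exact_mod_cast hp.two_le
  have := dl_le_half l
  linarith

theorem totient_real (n : ℕ) :
    (n.totient : ℝ) = n * ∏ l ∈ n.primeFactors, (1 - (l : ℝ)⁻¹) := by
  have h := Nat.totient_eq_mul_prod_factors n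
  have h2 := congrArg (fun q : ℚ => (q : ℝ)) h
  push_cast at h2
  exact h2

theorem fw_nonneg (n : ℕ) : 0 ≤ fw n := by
  unfold fw; exact div_nonneg (ws_nonneg n) (Nat.cast_nonneg _)

theorem fw_le (n : ℕ) : fw n ≤ 1 / n := by
  rcases Nat.eq_zero_or_pos n with h | h
  · subst h
    unfold fw
    simp
  · unfold fw
    have hφ : (0 : ℝ) < n.totient := by exact_mod_cast Nat.totient_pos.mpr h
    have hn : (0 : ℝ) < n := by exact_mod_cast h
    rw [div_le_div_iff₀ hφ hn, one_mul, totient_real n, mul_comm]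
    exact mul_le_mul_of_nonneg_left (ws_le_prod n) hn.le

theorem fw_HH_le (q : ℕ × ℕ × ℕ × ℕ) :
    fw (HH q) ≤ 1 / (q.1 : ℝ) * (1 / (q.2.1 : ℝ)) * (1 / (q.2.2.1 : ℝ)) * (1 / (q.2.2.2 : ℝ)) := by
  refine (fw_le _).trans (le_of_eq ?_)
  unfold HH
  push_cast
  rw [one_div_mul_one_div, one_div_mul_one_div, one_div_mul_one_div]

/-! ### the two sums -/

/-- the intervals -/
def IX (Z : ℕ) : Finset ℕ := Ioc Z (Z ^ 3)

/-- the box in terms of the intervals -/
theorem mem_Box {W c Z : ℕ} {q : ℕ × ℕ × ℕ × ℕ} (h : q ∈ Box W c Z) :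
    q.1 ∈ IX Z ∧ q.2.1 ∈ IX (Z ^ 10) ∧ q.2.2.1 ∈ IX (Z ^ 100) ∧ q.2.2.2 ∈ IX Z ∧ Cop q := by
  unfold Box BoxAll cls at h
  rw [mem_filter, mem_product, mem_product, mem_product, mem_filter, mem_filter, mem_filter,
    mem_filter] at h
  exact ⟨h.1.1.1, h.1.2.1.1, h.1.2.2.1.1, h.1.2.2.2.1, h.2⟩

/-- number of quadruples of divisors -/
theorem card_tuples (t : ℕ) :
    (((t.divisors ×ˢ t.divisors ×ˢ t.divisors ×ˢ t.divisors).filter
      (fun s => Cop s ∧ HH s = t)).card : ℝ) ≤ (t.divisors.card : ℝ) ^ 4 := by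
  have h := card_filter_le (t.divisors ×ˢ t.divisors ×ˢ t.divisors ×ˢ t.divisors)
    (fun s => Cop s ∧ HH s = t)
  rw [card_product, card_product, card_product] at h
  have h2 : (((t.divisors ×ˢ t.divisors ×ˢ t.divisors ×ˢ t.divisors).filter
      (fun s => Cop s ∧ HH s = t)).card : ℝ) ≤
      ((t.divisors.card * (t.divisors.card * (t.divisors.card * t.divisors.card)) : ℕ) : ℝ) := by
    exact_mod_cast h
  refine h2.trans (le_of_eq ?_)
  push_cast; ring

section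

variable {C₀ : ℝ} (hC₀ : 0 < C₀)
  (hT : ∀ Y D c : ℕ, 2 ≤ Y → 1 ≤ D →
    (∑ n ∈ (Ioc Y (Y ^ 3)).filter (fun n => n ≡ c [MOD D]), (1 : ℝ) / n ≤
      1 / Y + C₀ * Real.log Y / D) ∧
    (∑ n ∈ (Ioc Y (Y ^ 3)).filter (fun n => D ∣ n), (1 : ℝ) / n ≤ C₀ * Real.log Y / D) ∧
    (∑ n ∈ (Ioc Y (Y ^ 3)).filter (fun n => n ≡ c [MOD D] ∧ D ≤ 3 * n), (1 : ℝ) / n ≤
      C₀ * Real.log Y / D))

include hC₀ hT in
theorem outer (hABT : AbtStmt) (W Z c t : ℕ) (hZ : 2 ≤ Z) (ht : 1 ≤ t) :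
    ∑ q ∈ (Box W c Z).filter (fun q => t ∣ HH q), fw (HH q) ≤
      (t.divisors.card : ℝ) ^ 4 * (1000 * C₀ ^ 4 * Real.log Z ^ 4 / t) := by
  have hL : 0 ≤ Real.log Z := Real.log_natCast_nonneg Z
  have h10 : 2 ≤ Z ^ 10 := le_trans hZ (Nat.le_self_pow (by norm_num) Z)
  have h100 : 2 ≤ Z ^ 100 := le_trans hZ (Nat.le_self_pow (by norm_num) Z)
  have hl10 : Real.log ((Z ^ 10 : ℕ) : ℝ) = 10 * Real.log Z := by
    rw [Nat.cast_pow, Real.log_pow]; norm_num
  have hl100 : Real.log ((Z ^ 100 : ℕ) : ℝ) = 100 * Real.log Z := by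
    rw [Nat.cast_pow, Real.log_pow]; norm_num
  have hpos : ∀ s, s ∣ t → 1 ≤ s := fun s hs => Nat.pos_of_dvd_of_pos hs ht
  calc ∑ q ∈ (Box W c Z).filter (fun q => t ∣ HH q), fw (HH q)
      ≤ ∑ q ∈ (Box W c Z).filter (fun q => t ∣ HH q), 1 / (q.1 : ℝ) * (1 / (q.2.1 : ℝ)) *
          (1 / (q.2.2.1 : ℝ)) * (1 / (q.2.2.2 : ℝ)) :=
        sum_le_sum fun q _ => fw_HH_le q
    _ ≤ ∑ q ∈ (IX Z ×ˢ IX (Z ^ 10) ×ˢ IX (Z ^ 100) ×ˢ IX Z).filter
          (fun q => Cop q ∧ t ∣ HH q), 1 / (q.1 : ℝ) * (1 / (q.2.1 : ℝ)) *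
          (1 / (q.2.2.1 : ℝ)) * (1 / (q.2.2.2 : ℝ)) := by
        apply sum_le_sum_of_subset_of_nonneg
        · intro q hq
          rw [mem_filter] at hq
          obtain ⟨h1, h2, h3, h4, h5⟩ := mem_Box hq.1
          rw [mem_filter, mem_product, mem_product, mem_product]
          exact ⟨⟨h1, h2, h3, h4⟩, h5, hq.2⟩
        · intro q _ _
          positivity
    _ ≤ ∑ s ∈ (t.divisors ×ˢ t.divisors ×ˢ t.divisors ×ˢ t.divisors).filter
          (fun s => Cop s ∧ HH s = t), (C₀ * Real.log Z / s.1) *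
            (C₀ * (10 * Real.log Z) / s.2.1) * (C₀ * (100 * Real.log Z) / s.2.2.1) *
              (C₀ * Real.log Z / s.2.2.2) := by
        refine hABT (IX Z) (IX (Z ^ 10)) (IX (Z ^ 100)) (IX Z) (fun n => 1 / (n : ℝ))
          (fun s => C₀ * Real.log Z / s) (fun s => C₀ * (10 * Real.log Z) / s)
          (fun s => C₀ * (100 * Real.log Z) / s) (fun s => C₀ * Real.log Z / s) t ht
          (fun n => by positivity) (fun s => ⟨by positivity, by positivity, by positivity,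
            by positivity⟩) ?_ ?_ ?_ ?_
        · intro s hs
          exact (hT Z s 0 hZ (hpos s hs)).2.1
        · intro s hs
          have := (hT (Z ^ 10) s 0 h10 (hpos s hs)).2.1
          rw [hl10] at this
          exact this
        · intro s hs
          have := (hT (Z ^ 100) s 0 h100 (hpos s hs)).2.1
          rw [hl100] at this
          exact this
        · intro s hs
          exact (hT Z s 0 hZ (hpos s hs)).2.1
    _ ≤ ∑ s ∈ (t.divisors ×ˢ t.divisors ×ˢ t.divisors ×ˢ t.divisors).filter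
          (fun s => Cop s ∧ HH s = t), 1000 * C₀ ^ 4 * Real.log Z ^ 4 / t := by
        refine sum_le_sum fun s hs => le_of_eq ?_
        rw [mem_filter] at hs
        have h1 : (t : ℝ) = s.1 * s.2.1 * s.2.2.1 * s.2.2.2 := by
          rw [← hs.2.2]; unfold HH; push_cast; ring
        rw [h1]
        have hs0 : HH s ≠ 0 := by rw [hs.2.2]; omega
        unfold HH at hs0
        have h2 : (s.1 : ℝ) ≠ 0 := by
          intro h; apply hs0; rw [Nat.cast_eq_zero.mp h]; ring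
        have h3 : (s.2.1 : ℝ) ≠ 0 := by
          intro h; apply hs0; rw [Nat.cast_eq_zero.mp h]; ring
        have h4 : (s.2.2.1 : ℝ) ≠ 0 := by
          intro h; apply hs0; rw [Nat.cast_eq_zero.mp h]; ring
        have h5 : (s.2.2.2 : ℝ) ≠ 0 := by
          intro h; apply hs0; rw [Nat.cast_eq_zero.mp h]; ring
        field_simp
        ring
    _ ≤ (t.divisors.card : ℝ) ^ 4 * (1000 * C₀ ^ 4 * Real.log Z ^ 4 / t) := by
        rw [sum_const, nsmul_eq_mul]
        exact mul_le_mul_of_nonneg_right (card_tuples t) (by positivity)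

include hC₀ hT in
theorem inner (hABS : AbsStmt) (W Z c t D : ℕ) (b : ℤ) (hZ : 2 ≤ Z) (ht : 1 ≤ t) (hD : 1 ≤ D)
    (htD : t ∣ D) :
    ∑ q ∈ (Box W c Z).filter (fun q => t ∣ HH q ∧ (D : ℤ) ∣ (bb q : ℤ) - b ∧ D ≤ 3 * q.2.2.1),
      fw (HH q) ≤
      (t.divisors.card : ℝ) ^ 4 * (100 * C₀ ^ 3 * Real.log Z ^ 3 / D *
        (1 / (Z : ℝ) ^ 10 + 10 * C₀ * Real.log Z / t)) := by
  have hL : 0 ≤ Real.log Z := Real.log_natCast_nonneg Z
  have h10 : 2 ≤ Z ^ 10 := le_trans hZ (Nat.le_self_pow (by norm_num) Z)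
  have h100 : 2 ≤ Z ^ 100 := le_trans hZ (Nat.le_self_pow (by norm_num) Z)
  have hl10 : Real.log ((Z ^ 10 : ℕ) : ℝ) = 10 * Real.log Z := by
    rw [Nat.cast_pow, Real.log_pow]; norm_num
  have hl100 : Real.log ((Z ^ 100 : ℕ) : ℝ) = 100 * Real.log Z := by
    rw [Nat.cast_pow, Real.log_pow]; norm_num
  have hpos : ∀ s, s ∣ t → 1 ≤ s := fun s hs => Nat.pos_of_dvd_of_pos hs ht
  have hZ0 : (0 : ℝ) < Z := by exact_mod_cast (by omega : 0 < Z)
  calc ∑ q ∈ (Box W c Z).filter (fun q => t ∣ HH q ∧ (D : ℤ) ∣ (bb q : ℤ) - b ∧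
        D ≤ 3 * q.2.2.1), fw (HH q)
      ≤ ∑ q ∈ (Box W c Z).filter (fun q => t ∣ HH q ∧ (D : ℤ) ∣ (bb q : ℤ) - b ∧
        D ≤ 3 * q.2.2.1), 1 / (q.1 : ℝ) * (1 / (q.2.1 : ℝ)) *
          (1 / (q.2.2.1 : ℝ)) * (1 / (q.2.2.2 : ℝ)) :=
        sum_le_sum fun q _ => fw_HH_le q
    _ ≤ ∑ q ∈ (IX Z ×ˢ IX (Z ^ 10) ×ˢ (IX (Z ^ 100)).filter (fun v => D ≤ 3 * v) ×ˢ
          IX Z).filter (fun q => Cop q ∧ t ∣ HH q ∧ (D : ℤ) ∣ (bb q : ℤ) - b),
          1 / (q.1 : ℝ) * (1 / (q.2.1 : ℝ)) * (1 / (q.2.2.1 : ℝ)) * (1 / (q.2.2.2 : ℝ)) := by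
        apply sum_le_sum_of_subset_of_nonneg
        · intro q hq
          rw [mem_filter] at hq
          obtain ⟨h1, h2, h3, h4, h5⟩ := mem_Box hq.1
          rw [mem_filter, mem_product, mem_product, mem_product, mem_filter]
          exact ⟨⟨h1, h2, ⟨h3, hq.2.2.2⟩, h4⟩, h5, hq.2.1, hq.2.2.1⟩
        · intro q _ _
          positivity
    _ ≤ ∑ s ∈ (t.divisors ×ˢ t.divisors ×ˢ t.divisors ×ˢ t.divisors).filter
          (fun s => Cop s ∧ HH s = t), (C₀ * Real.log Z / s.1) *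
            (1 / (Z : ℝ) ^ 10 + C₀ * (10 * Real.log Z) / ((s.2.1 * s.2.2.1 : ℕ) : ℝ)) *
              (C₀ * (100 * Real.log Z) / D) * (C₀ * Real.log Z / s.2.2.2) := by
        refine hABS (IX Z) (IX (Z ^ 10)) ((IX (Z ^ 100)).filter (fun v => D ≤ 3 * v)) (IX Z)
          (fun n => 1 / (n : ℝ))
          (fun s => C₀ * Real.log Z / s)
          (fun s => 1 / (Z : ℝ) ^ 10 + C₀ * (10 * Real.log Z) / s)
          (fun s => C₀ * (100 * Real.log Z) / s) (fun s => C₀ * Real.log Z / s) t D b ht hD htD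
          (fun n => by positivity) (fun s => ⟨by positivity, by positivity, by positivity,
            by positivity⟩) ?_ ?_ ?_ ?_
        · intro s hs
          exact (hT Z s 0 hZ (hpos s hs)).2.1
        · intro s c' hs
          have := (hT (Z ^ 10) s c' h10 (hpos s hs)).1
          rw [hl10, Nat.cast_pow] at this
          exact this
        · intro c'
          have := (hT (Z ^ 100) D c' h100 hD).2.2
          rw [hl100] at this
          rw [filter_filter]
          have h6 : (IX (Z ^ 100)).filter (fun a => D ≤ 3 * a ∧ a ≡ c' [MOD D]) =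
              (Ioc (Z ^ 100) ((Z ^ 100) ^ 3)).filter (fun n => n ≡ c' [MOD D] ∧ D ≤ 3 * n) := by
            unfold IX
            apply filter_congr
            intro n _
            exact and_comm
          rw [h6]
          exact this
        · intro s hs
          exact (hT Z s 0 hZ (hpos s hs)).2.1
    _ ≤ ∑ s ∈ (t.divisors ×ˢ t.divisors ×ˢ t.divisors ×ˢ t.divisors).filter
          (fun s => Cop s ∧ HH s = t), 100 * C₀ ^ 3 * Real.log Z ^ 3 / D *
        (1 / (Z : ℝ) ^ 10 + 10 * C₀ * Real.log Z / t) := by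
        refine sum_le_sum fun s hs => ?_
        rw [mem_filter] at hs
        have h1 : (t : ℝ) = s.1 * s.2.1 * s.2.2.1 * s.2.2.2 := by
          rw [← hs.2.2]; unfold HH; push_cast; ring
        have hs0 : HH s ≠ 0 := by rw [hs.2.2]; omega
        unfold HH at hs0
        have g2 : s.1 ≠ 0 := by
          intro h; apply hs0; rw [h]; ring
        have g3 : s.2.1 ≠ 0 := by
          intro h; apply hs0; rw [h]; ring
        have g4 : s.2.2.1 ≠ 0 := by
          intro h; apply hs0; rw [h]; ring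
        have g5 : s.2.2.2 ≠ 0 := by
          intro h; apply hs0; rw [h]; ring
        have h2 : (1 : ℝ) ≤ s.1 := by exact_mod_cast Nat.one_le_iff_ne_zero.mpr g2
        have h3 : (1 : ℝ) ≤ s.2.1 := by exact_mod_cast Nat.one_le_iff_ne_zero.mpr g3
        have h4 : (1 : ℝ) ≤ s.2.2.1 := by exact_mod_cast Nat.one_le_iff_ne_zero.mpr g4
        have h5 : (1 : ℝ) ≤ s.2.2.2 := by exact_mod_cast Nat.one_le_iff_ne_zero.mpr g5
        have e1 : (C₀ * Real.log Z / s.1) *
            (1 / (Z : ℝ) ^ 10 + C₀ * (10 * Real.log Z) / ((s.2.1 * s.2.2.1 : ℕ) : ℝ)) *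
              (C₀ * (100 * Real.log Z) / D) * (C₀ * Real.log Z / s.2.2.2) =
            100 * C₀ ^ 3 * Real.log Z ^ 3 / D *
              (1 / (Z : ℝ) ^ 10 * (1 / ((s.1 : ℝ) * s.2.2.2)) + 10 * C₀ * Real.log Z / t) := by
          rw [h1]
          push_cast
          have h2' : (s.1 : ℝ) ≠ 0 := by positivity
          have h3' : (s.2.1 : ℝ) ≠ 0 := by positivity
          have h4' : (s.2.2.1 : ℝ) ≠ 0 := by positivity
          have h5' : (s.2.2.2 : ℝ) ≠ 0 := by positivity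
          have hD' : (D : ℝ) ≠ 0 := by
            have : (1 : ℝ) ≤ D := by exact_mod_cast hD
            positivity
          field_simp
        rw [e1]
        apply mul_le_mul_of_nonneg_left _ (by positivity)
        have h6 : 1 / ((s.1 : ℝ) * s.2.2.2) ≤ 1 := by
          rw [div_le_one (by positivity)]
          nlinarith
        have h7 : 1 / (Z : ℝ) ^ 10 * (1 / ((s.1 : ℝ) * s.2.2.2)) ≤ 1 / (Z : ℝ) ^ 10 :=
          mul_le_of_le_one_right (by positivity) h6
        linarith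
    _ ≤ (t.divisors.card : ℝ) ^ 4 * (100 * C₀ ^ 3 * Real.log Z ^ 3 / D *
        (1 / (Z : ℝ) ^ 10 + 10 * C₀ * Real.log Z / t)) := by
        rw [sum_const, nsmul_eq_mul]
        exact mul_le_mul_of_nonneg_right (card_tuples t) (by positivity)

end

/-- the size of `D` -/
theorem D_le {W c Z D : ℕ} {q q' : ℕ × ℕ × ℕ × ℕ} (hZ : 2 ≤ Z) (hq : q ∈ Box W c Z)
    (hq' : q' ∈ Box W c Z) (hv : q'.2.2.1 ≤ q.2.2.1) (hne : bb q ≠ bb q')
    (hD : (D : ℤ) ∣ (bb q : ℤ) - bb q') : D ≤ 3 * q.2.2.1 := by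
  obtain ⟨h1, h2, h3, -, -⟩ := mem_Box hq
  obtain ⟨h1', h2', h3', -, -⟩ := mem_Box hq'
  unfold IX at h1 h2 h3 h1' h2' h3'
  rw [mem_Ioc] at h1 h2 h3 h1' h2' h3'
  have e3 : Z ^ 3 ≤ Z ^ 100 := Nat.pow_le_pow_right (by omega) (by norm_num)
  have e30 : (Z ^ 10) ^ 3 ≤ Z ^ 100 := by
    rw [← pow_mul]; exact Nat.pow_le_pow_right (by omega) (by norm_num)
  have hle : D ≤ ((bb q : ℤ) - bb q').natAbs := by
    have h5 : ((bb q : ℤ) - bb q').natAbs ≠ 0 := by
      intro h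
      rw [Int.natAbs_eq_zero] at h
      omega
    exact Nat.le_of_dvd (Nat.pos_of_ne_zero h5) (Int.natCast_dvd.mp hD)
  unfold bb at hle
  omega

theorem termt (hABS : AbsStmt) (hABT : AbtStmt) (hTRIV : TrivStmt) : TermtStmt := by
  obtain ⟨C₀, hC₀, hT⟩ := hTRIV
  have hlog2 : 0 < Real.log 2 := Real.log_pos (by norm_num)
  set C₁ : ℝ := 1 / Real.log 2 + 10 * C₀ with hC₁
  have hC₁0 : 0 < C₁ := by positivity
  refine ⟨2 * (1000 * C₀ ^ 4) * (100 * C₀ ^ 3 * C₁), by positivity, ?_⟩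
  intro W Z c t d hW hZ hc ht hd
  set D : ℕ := t.lcm d with hDdef
  have hD : 1 ≤ D := Nat.pos_of_ne_zero (Nat.lcm_ne_zero (by omega) (by omega))
  have htD : t ∣ D := Nat.dvd_lcm_left t d
  have hLZ : Real.log 2 ≤ Real.log Z := Real.log_le_log (by norm_num) (by exact_mod_cast hZ)
  have hL : 0 < Real.log Z := lt_of_lt_of_le hlog2 hLZ
  have hZ0 : (0 : ℝ) < Z := by exact_mod_cast (by omega : 0 < Z)
  have ht0 : (0 : ℝ) < t := by exact_mod_cast (by omega : 0 < t)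
  have hD0 : (0 : ℝ) < D := by exact_mod_cast (by omega : 0 < D)
  set τ : ℝ := (t.divisors.card : ℝ) with hτ
  have hτ0 : 0 ≤ τ := Nat.cast_nonneg _
  set I : ℝ := τ ^ 4 * (100 * C₀ ^ 3 * Real.log Z ^ 3 / D *
        (1 / (Z : ℝ) ^ 10 + 10 * C₀ * Real.log Z / t)) with hI
  have hI0 : 0 ≤ I := by positivity
  set O : ℝ := τ ^ 4 * (1000 * C₀ ^ 4 * Real.log Z ^ 4 / t) with hO
  -- one half of the sum
  set a : (ℕ × ℕ × ℕ × ℕ) → (ℕ × ℕ × ℕ × ℕ) → ℝ := fun q q' =>
    if t ∣ HH q' ∧ (t ∣ HH q ∧ (D : ℤ) ∣ (bb q : ℤ) - bb q' ∧ D ≤ 3 * q.2.2.1) then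
      fw (HH q) * fw (HH q') else 0 with ha
  have ha0 : ∀ q q', 0 ≤ a q q' := by
    intro q q'
    simp only [ha]
    split_ifs
    · exact mul_nonneg (fw_nonneg _) (fw_nonneg _)
    · exact le_rfl
  have hhalf : ∑ q' ∈ Box W c Z, ∑ q ∈ Box W c Z, a q q' ≤ O * I := by
    calc ∑ q' ∈ Box W c Z, ∑ q ∈ Box W c Z, a q q'
        ≤ ∑ q' ∈ Box W c Z, (if t ∣ HH q' then fw (HH q') * I else 0) := by
          refine sum_le_sum fun q' _ => ?_
          by_cases h : t ∣ HH q'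
          · rw [if_pos h]
            have h1 : ∀ q ∈ Box W c Z, a q q' =
                fw (HH q') * (if (t ∣ HH q ∧ (D : ℤ) ∣ (bb q : ℤ) - bb q' ∧
                  D ≤ 3 * q.2.2.1) then fw (HH q) else 0) := by
              intro q _
              simp only [ha]
              by_cases h2 : (t ∣ HH q ∧ (D : ℤ) ∣ (bb q : ℤ) - bb q' ∧ D ≤ 3 * q.2.2.1)
              · rw [if_pos ⟨h, h2⟩, if_pos h2, mul_comm]
              · rw [if_neg (fun h3 => h2 h3.2), if_neg h2, mul_zero]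
            rw [sum_congr rfl h1, ← mul_sum, ← sum_filter]
            exact mul_le_mul_of_nonneg_left
              (inner hC₀ hT hABS W Z c t D (bb q') hZ ht hD htD) (fw_nonneg _)
          · rw [if_neg h]
            refine (sum_eq_zero fun q _ => ?_).le
            simp only [ha]
            exact if_neg (fun h3 => h h3.1)
      _ = (∑ q' ∈ (Box W c Z).filter (fun q => t ∣ HH q), fw (HH q')) * I := by
          rw [← sum_filter, sum_mul]
      _ ≤ O * I := mul_le_mul_of_nonneg_right (outer hC₀ hT hABT W Z c t hZ ht) hI0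
  have hmain : pairSum W c Z t d ≤ 2 * (O * I) := by
    unfold pairSum
    calc ∑ p ∈ (Box W c Z ×ˢ Box W c Z).filter (fun p => bb p.1 ≠ bb p.2 ∧ t ∣ HH p.1 ∧
          t ∣ HH p.2 ∧ ((t.lcm d : ℕ) : ℤ) ∣ (bb p.1 : ℤ) - bb p.2), fw (HH p.1) * fw (HH p.2)
        ≤ ∑ p ∈ Box W c Z ×ˢ Box W c Z, (a p.1 p.2 + a p.2 p.1) := by
          rw [sum_filter]
          refine sum_le_sum fun p hp => ?_
          rw [mem_product] at hp
          by_cases h : bb p.1 ≠ bb p.2 ∧ t ∣ HH p.1 ∧ t ∣ HH p.2 ∧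
            ((t.lcm d : ℕ) : ℤ) ∣ (bb p.1 : ℤ) - bb p.2
          · rw [if_pos h]
            obtain ⟨h1, h2, h3, h4⟩ := h
            rcases le_total p.2.2.2.1 p.1.2.2.1 with hv | hv
            · have h5 : a p.1 p.2 = fw (HH p.1) * fw (HH p.2) := by
                simp only [ha]
                exact if_pos ⟨h3, h2, h4, D_le hZ hp.1 hp.2 hv h1 h4⟩
              rw [h5]
              linarith [ha0 p.2 p.1]
            · have h4' : (D : ℤ) ∣ (bb p.2 : ℤ) - bb p.1 := by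
                have := (dvd_neg.mpr h4)
                rwa [neg_sub] at this
              have h5 : a p.2 p.1 = fw (HH p.1) * fw (HH p.2) := by
                simp only [ha]
                rw [if_pos ⟨h2, h3, h4', D_le hZ hp.2 hp.1 hv (Ne.symm h1) h4'⟩, mul_comm]
              rw [h5]
              linarith [ha0 p.1 p.2]
          · rw [if_neg h]
            exact add_nonneg (ha0 _ _) (ha0 _ _)
      _ = ∑ q' ∈ Box W c Z, ∑ q ∈ Box W c Z, a q q' +
            ∑ q' ∈ Box W c Z, ∑ q ∈ Box W c Z, a q q' := by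
          rw [sum_add_distrib, sum_product, sum_product]
          congr 1
          rw [sum_comm]
      _ ≤ 2 * (O * I) := by linarith
  refine hmain.trans ?_
  -- numerical comparison
  have hI1 : I ≤ τ ^ 4 * (100 * C₀ ^ 3 * Real.log Z ^ 3 / D *
      (C₁ * Real.log Z * (1 / t + 1 / (Z : ℝ) ^ 10))) := by
    rw [hI]
    apply mul_le_mul_of_nonneg_left _ (by positivity)
    apply mul_le_mul_of_nonneg_left _ (by positivity)
    have h1 : 1 ≤ 1 / Real.log 2 * Real.log Z := by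
      rw [one_div, ← div_eq_inv_mul, le_div_iff₀ hlog2, one_mul]; exact hLZ
    have h2 : 1 / (Z : ℝ) ^ 10 ≤ C₁ * Real.log Z * (1 / (Z : ℝ) ^ 10) := by
      have h3 : 1 ≤ C₁ * Real.log Z := by
        rw [hC₁, add_mul]
        have : 0 ≤ 10 * C₀ * Real.log Z := by positivity
        linarith
      have h4 : 0 ≤ 1 / (Z : ℝ) ^ 10 := by positivity
      nlinarith
    have h3 : 10 * C₀ * Real.log Z / t ≤ C₁ * Real.log Z * (1 / t) := by
      rw [hC₁, mul_one_div]
      apply div_le_div_of_nonneg_right _ ht0.le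
      rw [add_mul]
      have : 0 ≤ 1 / Real.log 2 * Real.log Z := by positivity
      linarith
    rw [mul_add]
    linarith
  calc 2 * (O * I) ≤ 2 * (O * (τ ^ 4 * (100 * C₀ ^ 3 * Real.log Z ^ 3 / D *
      (C₁ * Real.log Z * (1 / t + 1 / (Z : ℝ) ^ 10))))) := by
        apply mul_le_mul_of_nonneg_left _ (by norm_num)
        exact mul_le_mul_of_nonneg_left hI1 (by positivity)
    _ = 2 * (1000 * C₀ ^ 4) * (100 * C₀ ^ 3 * C₁) * Real.log Z ^ 8 * τ ^ 8 *
        (1 / ((t : ℝ) * D) * (1 / t + 1 / (Z : ℝ) ^ 10)) := by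
        rw [hO]
        field_simp

end Pool.Agent.Lib.MP_ba0fa5_ag.AA.H74
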